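import Pool.Agent.helper43.BMH.Spec

set_option autoImplicit false

namespace Pool.Agent.helper43.BMH

open scoped ENNReal
open Pool.Agent.helper75.BM (nrm N2 L dBM)
open Pool.Agent.helper75.BM

theorem BLK_mono (q : ℝ≥0∞) {a b a' b' : ℝ} (ha : 0 ≤ a) (hb : 0 ≤ b) (haa : a ≤ a') (hbb : b ≤ b') :
    N2 q a b ≤ N2 q a' b' := by
  unfold N2
  rw [abs_of_nonneg ha, abs_of_nonneg hb, abs_of_nonneg (ha.trans haa), abs_of_nonneg (hb.trans hbb)]
  split_ifs with h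
  · exact max_le_max haa hbb
  · apply Real.rpow_le_rpow (by positivity)
    · exact add_le_add (Real.rpow_le_rpow ha haa ENNReal.toReal_nonneg)
        (Real.rpow_le_rpow hb hbb ENNReal.toReal_nonneg)
    · positivity

/-- the first and the second part of a vector -/
def BLK_E (m r : ℕ) : ((Fin m → ℝ) × (Fin r → ℝ)) ≃ₗ[ℝ] (Fin (m + r) → ℝ) where
  toFun p := Fin.append p.1 p.2
  invFun x := (fun i => x (Fin.castAdd r i), fun i => x (Fin.natAdd m i))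
  map_add' p q := by
    ext i
    refine Fin.addCases (fun i => ?_) (fun i => ?_) i
    · simp only [Fin.append_left, Pi.add_apply, Prod.fst_add]
    · simp only [Fin.append_right, Pi.add_apply, Prod.snd_add]
  map_smul' c p := by
    ext i
    refine Fin.addCases (fun i => ?_) (fun i => ?_) i
    · simp only [Fin.append_left, Pi.smul_apply, Prod.smul_fst, RingHom.id_apply]
    · simp only [Fin.append_right, Pi.smul_apply, Prod.smul_snd, RingHom.id_apply]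
  left_inv p := by
    apply Prod.ext
    · funext i
      simp only [Fin.append_left]
    · funext i
      simp only [Fin.append_right]
  right_inv x := by
    funext i
    refine Fin.addCases (fun i => ?_) (fun i => ?_) i
    · simp only [Fin.append_left]
    · simp only [Fin.append_right]

theorem t_blk (h : NAP) : BLK := by
  intro p q hp hq hpq m r l₁ l₂ ⟨hl₁, A₁, hA₁, hA₁'⟩ ⟨hl₂, A₂, hA₂, hA₂'⟩
  have hS : 0 < l₁ + l₂ := by positivity
  set c₁ : ℝ := l₁ / (l₁ + l₂) with hc₁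
  set c₂ : ℝ := l₂ / (l₁ + l₂) with hc₂
  have h1 : 0 < c₁ := by positivity
  have h2 : 0 < c₂ := by positivity
  have h12 : c₁ + c₂ = 1 := by rw [hc₁, hc₂, ← add_div, div_self hS.ne']
  have hS1 : (l₁ + l₂) * c₁ = l₁ := mul_div_cancel₀ _ hS.ne'
  have hS2 : (l₁ + l₂) * c₂ = l₂ := mul_div_cancel₀ _ hS.ne'
  set B₁ := A₁.trans (LinearEquiv.smulOfNeZero ℝ (Fin m → ℝ) c₁ h1.ne') with hB₁
  set B₂ := A₂.trans (LinearEquiv.smulOfNeZero ℝ (Fin r → ℝ) c₂ h2.ne') with hB₂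
  have e1 : ∀ x, nrm p (B₁ x) = c₁ * nrm p (A₁ x) := by
    intro x
    have : B₁ x = c₁ • A₁ x := rfl
    rw [this, nrm_smul, abs_of_pos h1]
  have e2 : ∀ x, nrm p (B₂ x) = c₂ * nrm p (A₂ x) := by
    intro x
    have : B₂ x = c₂ • A₂ x := rfl
    rw [this, nrm_smul, abs_of_pos h2]
  refine ⟨hS, ((BLK_E m r).symm.trans (LinearEquiv.prodCongr B₁ B₂)).trans (BLK_E m r), ?_, ?_⟩
  · intro x
    obtain ⟨⟨x₁, x₂⟩, rfl⟩ := (BLK_E m r).surjective x
    rw [LinearEquiv.trans_apply, LinearEquiv.trans_apply, LinearEquiv.symm_apply_apply]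
    show nrm p (Fin.append (B₁ x₁) (B₂ x₂)) ≤ nrm q (Fin.append x₁ x₂)
    rw [h, h, e1, e2]
    have g1 : nrm q x₁ ≤ N2 q (nrm q x₁) (nrm q x₂) := (le_abs_self _).trans (N2_ge_left _ _)
    have g2 : nrm q x₂ ≤ N2 q (nrm q x₁) (nrm q x₂) := by
      rw [N2_comm]
      exact (le_abs_self _).trans (N2_ge_left _ _)
    calc N2 p (c₁ * nrm p (A₁ x₁)) (c₂ * nrm p (A₂ x₂))
        ≤ |c₁ * nrm p (A₁ x₁)| + |c₂ * nrm p (A₂ x₂)| := N2_le_add _ _
      _ = c₁ * nrm p (A₁ x₁) + c₂ * nrm p (A₂ x₂) := by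
          rw [abs_of_nonneg (mul_nonneg h1.le (nrm_nonneg _)), abs_of_nonneg (mul_nonneg h2.le (nrm_nonneg _))]
      _ ≤ c₁ * N2 q (nrm q x₁) (nrm q x₂) + c₂ * N2 q (nrm q x₁) (nrm q x₂) :=
          add_le_add (mul_le_mul_of_nonneg_left ((hA₁ x₁).trans g1) h1.le)
            (mul_le_mul_of_nonneg_left ((hA₂ x₂).trans g2) h2.le)
      _ = N2 q (nrm q x₁) (nrm q x₂) := by rw [← add_mul, h12, one_mul]
  · intro x
    obtain ⟨⟨x₁, x₂⟩, rfl⟩ := (BLK_E m r).surjective x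
    rw [LinearEquiv.trans_apply, LinearEquiv.trans_apply, LinearEquiv.symm_apply_apply]
    show nrm q (Fin.append x₁ x₂) ≤ (l₁ + l₂) * nrm p (Fin.append (B₁ x₁) (B₂ x₂))
    rw [h, h, e1, e2]
    have g1 : nrm q x₁ ≤ (l₁ + l₂) * (c₁ * nrm p (A₁ x₁)) := by
      rw [← mul_assoc, hS1]
      exact hA₁' x₁
    have g2 : nrm q x₂ ≤ (l₁ + l₂) * (c₂ * nrm p (A₂ x₂)) := by
      rw [← mul_assoc, hS2]
      exact hA₂' x₂
    calc N2 q (nrm q x₁) (nrm q x₂)
        ≤ N2 q ((l₁ + l₂) * (c₁ * nrm p (A₁ x₁))) ((l₁ + l₂) * (c₂ * nrm p (A₂ x₂))) :=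
          BLK_mono q (nrm_nonneg _) (nrm_nonneg _) g1 g2
      _ = (l₁ + l₂) * N2 q (c₁ * nrm p (A₁ x₁)) (c₂ * nrm p (A₂ x₂)) := by
          rw [N2_smul, abs_of_pos hS]
      _ ≤ (l₁ + l₂) * N2 p (c₁ * nrm p (A₁ x₁)) (c₂ * nrm p (A₂ x₂)) :=
          mul_le_mul_of_nonneg_left (N2_anti hpq _ _) hS.le

end Pool.Agent.helper43.BMH
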